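import Mathlib
import Pool.Agent.helper21.FockPoly
import Pool.Agent.helper21.FockEquiv

set_option autoImplicit false

open MeasureTheory

namespace Pool.Agent.Results.MP_3a72d9_an.PolyFockGenerated

open Pool.Agent.helper21.Fock

/-- Q2. For every `n ≥ 1` (in particular for every `n ≥ 2`) the polyanalytic Fock space `F^2_n` is
a closed subspace of `L^2(ℂ, μ)`, and the algebra of band-dominated operators on it is the
`C*`-algebra generated by the Toeplitz operators with bounded symbols. -/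
theorem result (n : ℕ) (_hn : 1 ≤ n) (μ : Measure ℂ) (_hμ : μ = gaussianMeasure) :
    ∃ F : Submodule ℂ (Lp ℂ 2 μ),
      (∀ f : Lp ℂ 2 μ, f ∈ F ↔ ∃ ψ : ℂ → ℂ, PolyFockForm n ψ ∧ f =ᵐ[μ] ψ) ∧
      ∃ _ : CompleteSpace F, ∀ T : F →L[ℂ] F, BandDominated F T ↔ ToeplitzGenerated F T := by
  subst _hμ
  refine ⟨polyFock n, fun f => ⟨?_, ?_⟩, inferInstance, fun T => ?_⟩
  · rintro ⟨h, hh, hf⟩
    exact ⟨_, ⟨h, hh, fun _ => rfl⟩, hf⟩
  · rintro ⟨ψ, ⟨h, hh, hψ⟩, hf⟩
    exact ⟨h, hh, hf.trans (Filter.Eventually.of_forall hψ)⟩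
  · rw [bandDominated_iff, toeplitzGenerated_iff, poly_main n _hn]

end Pool.Agent.Results.MP_3a72d9_an.PolyFockGenerated
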