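import Mathlib
import Pool.Agent.helper21.FockTrue
import Pool.Agent.helper21.FockEquiv

set_option autoImplicit false

open MeasureTheory

namespace Pool.Agent.Results.MP_3a72d9_an.TrueFockGenerated

open Pool.Agent.helper21.Fock

/-- Q1. For every `k ≥ 1` (in particular for every `k ≥ 2`) the true polyanalytic Fock space
`F^2_{(k)}` is a closed subspace of `L^2(ℂ, μ)`, and the algebra of band-dominated operators on it
is the `C*`-algebra generated by the Toeplitz operators with bounded symbols. -/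
theorem result (k : ℕ) (_hk : 1 ≤ k) (μ : Measure ℂ) (_hμ : μ = gaussianMeasure) :
    ∃ F : Submodule ℂ (Lp ℂ 2 μ),
      (∀ f : Lp ℂ 2 μ, f ∈ F ↔ ∃ ψ : ℂ → ℂ, TrueFockForm k ψ ∧ f =ᵐ[μ] ψ) ∧
      ∃ _ : CompleteSpace F, ∀ T : F →L[ℂ] F, BandDominated F T ↔ ToeplitzGenerated F T := by
  subst _hμ
  refine ⟨trueFock k, fun f => ⟨?_, ?_⟩, inferInstance, fun T => ?_⟩
  · rintro ⟨g, hg, hf⟩
    exact ⟨_, ⟨g, hg, fun _ => rfl⟩, hf⟩
  · rintro ⟨ψ, ⟨g, hg, hψ⟩, hf⟩
    exact ⟨g, hg, hf.trans (Filter.Eventually.of_forall hψ)⟩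
  · rw [bandDominated_iff, toeplitzGenerated_iff, true_main k]

end Pool.Agent.Results.MP_3a72d9_an.TrueFockGenerated
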